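import Pool.Agent.H776R2.Om.Lower
import Pool.Agent.H776R2.Om.Upper
import Pool.Agent.H776R2.Om.Fin
import Pool.Agent.H776R2.Om.Pow
import Pool.Agent.H776R2.Om.Per

set_option autoImplicit false

/-!
# The growth of the Grigorchuk groups `G_ω` for homogeneous `ω`

For `ω : ℕ → Fin 3` let `G_ω = Gom ω` be the group generated by `a, b_ω, c_ω, d_ω` (permutations of the
finite binary words) and `ballO ω n` the number of its elements of length at most `n` (definitions in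
`Pool/Agent/H776R2/Om/Defs.lean`).  The integer weights `n_i(x)`, `x = b, c, d`, are given by
`n_0 = (1, 1, 1)`; in step `i` the weight of the letter whose entry in the column `ω_i` is `0` is replaced
by the sum of the three weights and the two other weights are doubled; `ℓ_i = max_x n_i(x)`, and
`F_ω(n) = 2 ^ (2 ^ k)` where `k` is the least number with `n ≤ ℓ_k` (`F_ω(0) = 1`).
We prove that `F_ω` is the degree of growth of `G_ω` for every homogeneous `ω`, and that it is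
`exp(n^α)` with `α = log 2 / log λ`, `λ = lim ℓ_k ^ (1/k)`, for every periodic `ω` containing all three
letters.
-/

namespace Pool.Agent.Results.MP_fbbd83_al.HomogeneousGrowth

open Pool.Agent.Results.MP_03d093_al.SphereBall Pool.Agent.H776R2.Grig Pool.Agent.H776R2.Om

theorem homogeneous {r : ℕ} {ω : Om} (h : Hom r ω) :
    (∃ C : ℕ, 1 ≤ C ∧ ∀ n : ℕ, FF ω n ≤ ballO ω (C * n)) ∧
    (∃ C : ℕ, 1 ≤ C ∧ ∀ n : ℕ, ballO ω n ≤ FF ω (C * n)) := by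
  obtain ⟨A, hA⟩ := ballO_lower h
  have hc0 : (0 : ℝ) < 1 / 3 ^ r := by positivity
  obtain ⟨C, -, hC⟩ := ballO_upper_of ω (1 / 3 ^ r) hc0 (fun i x => by
    have h1 : (ell ω i : ℝ) ≤ 3 ^ r * (nn ω i x : ℝ) := by exact_mod_cast nn_ge h i x
    rw [one_div, inv_mul_le_iff₀ (by positivity)]
    exact h1)
  exact ⟨FF_lower ω A hA, FF_upper ω C hC⟩

theorem periodic (ω : Om) (p : ℕ) (hp : 1 ≤ p) (hper : ∀ n, ω (n + p) = ω n)
    (hall : ∀ x : Fin 3, ∃ n, ω n = x) : ∃ lam : ℝ, 2 < lam ∧ lam ^ 2 ≤ 7 ∧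
    Filter.Tendsto (fun k : ℕ => ((ell ω k : ℝ)) ^ (1 / (k : ℝ))) Filter.atTop (nhds lam) ∧
    (∃ C : ℕ, 1 ≤ C ∧ ∀ n : ℕ,
      ⌊Real.exp ((n : ℝ) ^ (Real.log 2 / Real.log lam))⌋₊ ≤ ballO ω (C * n)) ∧
    (∃ C : ℕ, 1 ≤ C ∧ ∀ n : ℕ,
      ballO ω n ≤ ⌊Real.exp (((C * n : ℕ) : ℝ) ^ (Real.log 2 / Real.log lam))⌋₊) := by
  obtain ⟨lam, c1, c2, hl, hl7, hc1, hb, hT⟩ := per_lam ω p hp hper hall
  obtain ⟨⟨C1, hC1, h1⟩, ⟨C2, hC2, h2⟩⟩ := FF_expo ω lam c1 c2 hl hc1 hb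
  obtain ⟨⟨C3, hC3, h3⟩, ⟨C4, hC4, h4⟩⟩ := homogeneous (per_hom ω p hp hper hall)
  refine ⟨lam, hl, hl7, hT, ⟨C3 * C1, Nat.mul_pos hC3 hC1, fun n => ?_⟩,
    ⟨C2 * C4, Nat.mul_pos hC2 hC4, fun n => ?_⟩⟩
  · have := (h1 n).trans (h3 (C1 * n))
    rw [← mul_assoc] at this
    exact this
  · have := (h4 n).trans (h2 (C4 * n))
    rw [← mul_assoc] at this
    exact this

/-- **The degree of growth of `G_ω` for homogeneous `ω`.**  If `ω` is `r`-homogeneous (every subword of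
length `r` contains all three letters), then the growth function `ballO ω` of `G_ω` and the explicit
function `F_ω` dominate each other in the sense `f n ≤ g (C n)` for all `n`.  If moreover `ω` is periodic,
then `λ = lim ℓ_k ^ (1/k)` exists, `2 < λ ≤ √7`, and this degree of growth is that of `exp(n^α)`,
`α = log 2 / log λ`. -/
theorem result (ω : ℕ → Fin 3) (r : ℕ)
    (hom : ∀ n : ℕ, ∀ x : Fin 3, ∃ i : ℕ, i < r ∧ ω (n + i) = x) :
    (∃ C : ℕ, 1 ≤ C ∧ ∀ n : ℕ, FF ω n ≤ ballO ω (C * n)) ∧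
    (∃ C : ℕ, 1 ≤ C ∧ ∀ n : ℕ, ballO ω n ≤ FF ω (C * n)) ∧
    (∀ p : ℕ, 1 ≤ p → (∀ n, ω (n + p) = ω n) →
      ∃ lam : ℝ, 2 < lam ∧ lam ^ 2 ≤ 7 ∧
      Filter.Tendsto (fun k : ℕ => ((ell ω k : ℝ)) ^ (1 / (k : ℝ))) Filter.atTop (nhds lam) ∧
      (∃ C : ℕ, 1 ≤ C ∧ ∀ n : ℕ,
        ⌊Real.exp ((n : ℝ) ^ (Real.log 2 / Real.log lam))⌋₊ ≤ ballO ω (C * n)) ∧
      (∃ C : ℕ, 1 ≤ C ∧ ∀ n : ℕ,
        ballO ω n ≤ ⌊Real.exp (((C * n : ℕ) : ℝ) ^ (Real.log 2 / Real.log lam))⌋₊)) :=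
  ⟨(homogeneous hom).1, (homogeneous hom).2, fun p hp hper => periodic ω p hp hper (fun x => by
    obtain ⟨i, -, hi⟩ := hom 0 x
    exact ⟨0 + i, hi⟩)⟩

end Pool.Agent.Results.MP_fbbd83_al.HomogeneousGrowth
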